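import Pool.Agent.R571.IG.D

/-!
# Integrability of finitely presented groups is undecidable

Proof in short. Let `U` be a finitely presented group with unsolvable word problem. From a word `w`
one computes a finite presentation of a perfect group `L` which is trivial if and only if `w = 1` in
`U` (relators `(g h)⁻¹ h (g h) = h²`, one for each generator `h`, and a few words). Let `K = L * L`
be the free square of `L` and let `G` be the wreath product of `K` with the group of order two,
`G = (K × K) ⋊ ⟨c⟩`; a finite presentation of `G` is computable. If `L` is trivial then `G` has order
two and is the derived subgroup of the dihedral group of order eight. If `L` is nontrivial then `K`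
is perfect, centerless and directly indecomposable (the centralizer of a nontrivial element of a
factor of a free product lies in the factor), so that every automorphism of `K × K` permutes the
two factors. Suppose `H' = G`. Then `H` acts on `K × K = G'` by conjugation, and its action on the
two factors is a homomorphism to an abelian group, which is trivial on `H' = G`; but `c` swaps the
two factors.
-/

set_option autoImplicit false

namespace Pool.Agent.Results.MP_b13100_lc.IntegrabilityUndecidable

universe u

/-- The group given by the finite presentation `P = (n, R)`: generators `0, ..., n - 1` and the words
in the list `R` as relators; the letter `(i, true)` of a word is the generator `i` and the letter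
`(i, false)` is its inverse. -/
abbrev Presented (P : ℕ × List (List (ℕ × Bool))) : Type :=
  PresentedGroup {x : FreeGroup (Fin P.1) | ∃ r ∈ P.2, FreeGroup.map Fin.val x = FreeGroup.mk r}

/-- The group `G` is integrable: it is isomorphic to the derived subgroup of some group `H`. -/
def Integrable (G : Type) [Group G] : Prop :=
  ∃ (H : Type u) (_ : Group H), Nonempty (commutator H ≃* G)

/-- No algorithm decides, for all finite presentations `P = (n, R)` (lists of words in the letters
`(i, true)`, `(i, false)`, `i < n`), whether the presented group is integrable. -/
theorem result : ¬ ∃ f : ℕ × List (List (ℕ × Bool)) → Bool, Computable f ∧
    ∀ P : ℕ × List (List (ℕ × Bool)), (∀ r ∈ P.2, ∀ x ∈ r, x.1 < P.1) →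
      (f P = true ↔ Integrable.{u} (Presented P)) :=
  Pool.Agent.R571.IG.main.{u}

end Pool.Agent.Results.MP_b13100_lc.IntegrabilityUndecidable
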